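import Pool.Agent.Q266.RP.Stm4

/-!
Project RP (helper266), job CLP: a group of class at most p is CRegular.
-/

set_option autoImplicit false

namespace Pool.Agent.Q124.RPC

open Pool.Agent.Q266.RP
open scoped commutatorElement

theorem mem_aux (G : Type) [Group G] (a b g : G) :
    g * (a⁻¹ * (b * a * b⁻¹)⁻¹ * a * (b * a * b⁻¹)) * g⁻¹ ∈
      (⊤ : Subgroup G).lowerCentralSeries 2 := by
  have hn : ((⊤ : Subgroup G).lowerCentralSeries 2).Normal := inferInstance
  have hc : ⁅b, a⁆ ∈ (⊤ : Subgroup G).lowerCentralSeries 1 := by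
    rw [Subgroup.lowerCentralSeries_succ, Subgroup.lowerCentralSeries_zero]
    exact Subgroup.commutator_mem_commutator (Subgroup.mem_top _) (Subgroup.mem_top _)
  have hd : ⁅(⁅b, a⁆)⁻¹, a⁻¹⁆ ∈ (⊤ : Subgroup G).lowerCentralSeries 2 := by
    rw [Subgroup.lowerCentralSeries_succ]
    exact Subgroup.commutator_mem_commutator (inv_mem hc) (Subgroup.mem_top _)
  have he := hn.conj_mem _ (inv_mem hd) (g * a⁻¹)
  have hf : g * (a⁻¹ * (b * a * b⁻¹)⁻¹ * a * (b * a * b⁻¹)) * g⁻¹ =
      g * a⁻¹ * (⁅(⁅b, a⁆)⁻¹, a⁻¹⁆)⁻¹ * (g * a⁻¹)⁻¹ := by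
    simp only [commutatorElement_def]
    group
  rw [hf]
  exact he

theorem base' (hN : S_NCL) (G : Type) [Group G] (H : Subgroup G) (x y : H) (b : G)
    (htop : Subgroup.closure ({x, y} : Set H) = ⊤) (hy : (y : G) = b * x * b⁻¹) :
    H.lowerCentralSeries 1 ≤ (⊤ : Subgroup G).lowerCentralSeries 2 := by
  have h1 : commutator H ≤ ((⊤ : Subgroup G).lowerCentralSeries 2).comap H.subtype := by
    refine hN H x y htop _ fun g => ?_
    rw [Subgroup.mem_comap]
    have h2 := mem_aux G (x : G) b (g : G)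
    rw [← hy] at h2
    simpa using h2
  rw [← Subgroup.top_subtype_lowerCentralSeries, Subgroup.top_lowerCentralSeries_one,
    Subgroup.map_le_iff_le_comap]
  exact h1

theorem base (hN : S_NCL) (G : Type) [Group G] (a b : G) :
    (Subgroup.closure ({a, b * a * b⁻¹} : Set G)).lowerCentralSeries 1 ≤
      (⊤ : Subgroup G).lowerCentralSeries 2 := by
  have ha : a ∈ Subgroup.closure ({a, b * a * b⁻¹} : Set G) :=
    Subgroup.subset_closure (by simp)
  have hb : b * a * b⁻¹ ∈ Subgroup.closure ({a, b * a * b⁻¹} : Set G) :=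
    Subgroup.subset_closure (by simp)
  refine base' hN G _ ⟨a, ha⟩ ⟨b * a * b⁻¹, hb⟩ b ?_ rfl
  rw [← Subgroup.closure_closure_coe_preimage (k := ({a, b * a * b⁻¹} : Set G))]
  congr 1
  ext x
  simp [Subtype.ext_iff]

theorem step (hN : S_NCL) (G : Type) [Group G] (a b : G) (i : ℕ) :
    (Subgroup.closure ({a, b * a * b⁻¹} : Set G)).lowerCentralSeries (i + 1) ≤
      (⊤ : Subgroup G).lowerCentralSeries (i + 2) := by
  induction i with
  | zero => exact base hN G a b
  | succ i ih =>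
    rw [Subgroup.lowerCentralSeries_succ _ (i + 1), Subgroup.lowerCentralSeries_succ _ (i + 2)]
    exact Subgroup.commutator_mono ih le_top

theorem clp (hN : S_NCL) (hC : S_CLREG) : S_CLP := by
  intro p hp G _ hG a b
  apply hC
  obtain ⟨k, hk⟩ : ∃ k, p = k + 2 := ⟨p - 2, by have := hp.out.two_le; omega⟩
  have h1 := step hN G a b k
  have h2 : p - 1 = k + 1 := by omega
  rw [hk] at hG
  rw [h2]
  rw [hG, le_bot_iff, ← Subgroup.top_subtype_lowerCentralSeries] at h1
  exact (Subgroup.map_eq_bot_iff_of_injective _ (Subgroup.subtype_injective _)).1 h1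

end Pool.Agent.Q124.RPC
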